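import Pool.Agent.Lib.MP_3fc9e2_pr.Main

set_option autoImplicit false

open MeasureTheory ProbabilityTheory Filter Topology Set Finset
open scoped NNReal ENNReal

namespace Pool.Agent.Results.MP_3fc9e2_pr.NonUnique

open Pool.Agent.Lib.MP_3fc9e2_pr

/-- Negative answer to Q1, for every `T > 0`, every dimension `d ≥ 1`, every complete probability
space with a `d`-dimensional Brownian motion, and for all `p > 1` at once: there is a terminal
value `ξ`, measurable at time `T` and in every `L^p`, for which the equation has two solutions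
`(Y, Z)`, `(Y', Z')` with `|Y|^p` and `|Y'|^p` of class (D) for every `p > 1`, and `Y`, `Y'` are not
indistinguishable (indeed `Y 0 = 0` and `Y' 0 = 1`). -/
theorem result {Ω : Type*} {mΩ : MeasurableSpace Ω} (P : Measure Ω) [IsProbabilityMeasure P]
    [P.IsComplete] (d : ℕ) (hd : 1 ≤ d) (B : ℝ≥0 → Ω → EuclideanSpace ℝ (Fin d))
    (hB : IsBrownianMotion B P) (T : ℝ≥0) (hT : 0 < T) :
    ∃ (ξ : Ω → ℝ) (Y Y' : ℝ≥0 → Ω → ℝ) (Z Z' : ℝ≥0 → Ω → EuclideanSpace ℝ (Fin d)),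
      Measurable[completedFiltration P B hB.measurable T] ξ ∧
      (∀ p : ℝ, 1 < p → MemLp ξ (ENNReal.ofReal p) P) ∧
      IsSolution (completedFiltration P B hB.measurable) P B T ξ Y Z ∧
      IsSolution (completedFiltration P B hB.measurable) P B T ξ Y' Z' ∧
      (∀ p : ℝ, 1 < p →
        IsClassD (completedFiltration P B hB.measurable) P T (fun t ω ↦ |Y t ω| ^ p) ∧
        IsClassD (completedFiltration P B hB.measurable) P T (fun t ω ↦ |Y' t ω| ^ p)) ∧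
      (∀ ω, Y 0 ω = 0 ∧ Y' 0 ω = 1) ∧
      ¬ (∀ᵐ ω ∂P, ∀ t ≤ T, Y t ω = Y' t ω) := by
  set ℱ := completedFiltration P B hB.measurable with hℱ
  set i₀ : Fin d := ⟨0, hd⟩ with hi₀
  set w : ℝ≥0 → Ω → ℝ := ww B i₀ with hw
  have hwm : ∀ t, Measurable[ℱ t] (w t) := measurable_ww hB i₀
  have hwc : ∀ ω, Continuous fun t ↦ w t ω := continuous_ww i₀
  have hw0 : ∀ ω, w 0 ω = 0 := ww_zero i₀
  have hwB : ∀ᵐ ω ∂P, ∀ t, w t ω = B t ω i₀ := ww_eq hB i₀
  have hBc : ∀ᵐ ω ∂P, Continuous fun t ↦ B t ω i₀ := (hB.coord i₀).cont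
  have hpre : IsPreBrownianReal w P := isPreBrownian_ww hB i₀
  set τ : Ω → ℝ≥0 := fun ω ↦ tau T (fun t ↦ w t ω) with hτdef
  have hτ : ∀ a : ℝ≥0, MeasurableSet[ℱ a] {ω | a < τ ω} := measurableSet_lt_tau hT hwm hwc
  have hτT : ∀ ω, τ ω < T := fun ω ↦ tau_lt hT (hwc ω)
  have hτ0 : ∀ ω, 0 < τ ω := fun ω ↦ tau_pos hT (hwc ω) (hw0 ω)
  -- the two integrals and the drift
  set I₁ : ℝ≥0 → Ω → ℝ := fun t ω ↦ J c₁ T (τ ω) (fun s ↦ w s ω) t with hI₁
  set I₂ : ℝ≥0 → Ω → ℝ := fun t ω ↦ J c₂ T (τ ω) (fun s ↦ w s ω) t with hI₂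
  set D : ℝ≥0 → Ω → ℝ := fun t ω ↦ J c₂ T (τ ω) (fun s ↦ (s : ℝ)) t with hD
  have hwp : IsStronglyProgressive ℱ w :=
    StronglyAdapted.isStronglyProgressive_of_continuous (fun t ↦ (hwm t).stronglyMeasurable) hwc
  have hidp : IsStronglyProgressive ℱ fun (t : ℝ≥0) (_ : Ω) ↦ (t : ℝ) :=
    StronglyAdapted.isStronglyProgressive_of_continuous
      (fun t ↦ stronglyMeasurable_const) (fun ω ↦ NNReal.continuous_coe)
  have hI₁p : IsStronglyProgressive ℱ I₁ := progressive_J hτ hτT c₁ hwp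
  have hI₂p : IsStronglyProgressive ℱ I₂ := progressive_J hτ hτT c₂ hwp
  have hDp : IsStronglyProgressive ℱ D := progressive_J hτ hτT c₂ hidp
  have hY'p : IsStronglyProgressive ℱ fun t ω ↦ 1 + I₂ t ω - D t ω :=
    ((isStronglyProgressive_const ℱ (1 : ℝ)).add hI₂p).sub hDp
  have hsq : ∀ (c : ℕ → ℝ) (ω : Ω), ∫⁻ s in Icc (0 : ℝ) T,
      ‖K c T (τ ω) s.toNNReal • e i₀‖ₑ ^ 2 < ∞ := by
    intro c ω
    have h1 : ∀ s : ℝ, ‖K c T (τ ω) s.toNNReal • e i₀‖ₑ ^ 2 ≤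
        ENNReal.ofReal (∑ k ∈ range (NN T (τ ω)), |c k|) ^ 2 := by
      intro s
      gcongr
      rw [← ofReal_norm, norm_smul_e]
      exact ENNReal.ofReal_le_ofReal (abs_K_le' T (τ ω) _)
    refine lt_of_le_of_lt (lintegral_mono h1) ?_
    rw [lintegral_const, Measure.restrict_apply_univ, Real.volume_Icc]
    exact ENNReal.mul_lt_top (ENNReal.pow_lt_top ENNReal.ofReal_lt_top) ENNReal.ofReal_lt_top
  have hito : ∀ c : ℕ → ℝ, IsItoIntegral ℱ P B T (fun s ω ↦ K c T (τ ω) s • e i₀)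
      (fun t ω ↦ J c T (τ ω) (fun s ↦ w s ω) t) := fun c ↦
    isItoIntegral_J i₀ c hT hτ hτT hB.measurable hBc hwm hwc hwB
  have hterm : ∀ ω, 1 + I₂ T ω - D T ω = I₁ T ω := fun ω ↦ terminal hT (hwc ω) (hw0 ω)
  -- bounds
  set a : ℝ := (T : ℝ) + 1 with ha
  have hT' : (0 : ℝ) < T := by exact_mod_cast hT
  set R : ℝ := 1 + 2 * Real.pi * (2 * a / T) ^ 2 * (2 * a) with hR
  have hpi := Real.pi_pos
  have hR0 : 0 ≤ R := by positivity
  have hbase : ∀ M : ℝ, 0 ≤ M → 2 * Real.pi * (2 * (T + 1 + M) / T) ^ 2 ≤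
      2 * Real.pi * (2 * a / T) ^ 2 * (1 + M) ^ 2 := by
    intro M hM
    rw [mul_assoc (2 * Real.pi), ← mul_pow]
    gcongr
    rw [div_mul_eq_mul_div]
    apply div_le_div_of_nonneg_right _ hT'.le
    rw [ha]
    nlinarith
  have hb1 : ∀ ω, ∀ M : ℝ, (∀ t ≤ T, |w t ω| ≤ M) → ∀ t ≤ T, |I₁ t ω| ≤ R * (1 + M) ^ 3 := by
    intro ω M hM t ht
    have hM0 : 0 ≤ M := (abs_nonneg _).trans (hM 0 zero_le)
    have h1 := abs_J_tau_le hT (hwc ω) hM c₁_nonneg (fun n ↦ (sum_c₁_le n).trans (by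
      have : (0 : ℝ) ≤ (2 ^ n) ^ 2 := by positivity
      nlinarith)) (fun s ↦ w s ω) hM t
    refine h1.trans ?_
    calc 2 * Real.pi * (2 * (T + 1 + M) / T) ^ 2 * (2 * M)
        ≤ 2 * Real.pi * (2 * a / T) ^ 2 * (1 + M) ^ 2 * (2 * a * (1 + M)) := by
          refine mul_le_mul (hbase M hM0) ?_ (by positivity) (by positivity)
          rw [ha]; nlinarith
      _ ≤ R * (1 + M) ^ 3 := by
          rw [hR]
          have : (0 : ℝ) ≤ (1 + M) ^ 3 := by positivity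
          nlinarith
  have hb2 : ∀ ω, ∀ M : ℝ, (∀ t ≤ T, |w t ω| ≤ M) → ∀ t ≤ T,
      |1 + I₂ t ω - D t ω| ≤ R * (1 + M) ^ 3 := by
    intro ω M hM t ht
    have hM0 : 0 ≤ M := (abs_nonneg _).trans (hM 0 zero_le)
    have h1 := abs_J_tau_le hT (hwc ω) hM c₂_nonneg sum_c₂_le (fun s ↦ w s ω) hM t
    have h2 := abs_J_tau_le hT (hwc ω) hM c₂_nonneg sum_c₂_le (fun s ↦ (s : ℝ)) (M' := T)
      (fun s hs ↦ by
        rw [abs_of_nonneg (NNReal.coe_nonneg s)]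
        exact_mod_cast hs) t
    have h3 : |1 + I₂ t ω - D t ω| ≤ 1 + |I₂ t ω| + |D t ω| := by
      have e1 := abs_sub (1 + I₂ t ω) (D t ω)
      have e2 := abs_add_le 1 (I₂ t ω)
      rw [abs_one] at e2
      linarith
    refine h3.trans ?_
    have h4 : |I₂ t ω| + |D t ω| ≤
        2 * Real.pi * (2 * a / T) ^ 2 * (1 + M) ^ 2 * (2 * a * (1 + M)) := by
      have h5 : |I₂ t ω| + |D t ω| ≤ 2 * Real.pi * (2 * (T + 1 + M) / T) ^ 2 *
          (2 * M + 2 * T) := by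
        rw [mul_add]
        exact add_le_add h1 h2
      refine h5.trans ?_
      refine mul_le_mul (hbase M hM0) ?_ (by positivity) (by positivity)
      rw [ha]; nlinarith
    have h6 : (1 : ℝ) ≤ (1 + M) ^ 3 := one_le_pow₀ (by linarith)
    rw [hR]
    nlinarith
  have henorm : ∀ (x : ℝ) {p : ℝ}, 1 < p → ‖|x| ^ p‖ₑ = ‖x‖ₑ ^ p := by
    intro x p hp
    rw [← ofReal_norm, ← ofReal_norm, Real.norm_eq_abs, Real.norm_eq_abs,
      abs_of_nonneg (Real.rpow_nonneg (abs_nonneg x) p),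
      ENNReal.ofReal_rpow_of_nonneg (abs_nonneg x) (by linarith)]
  have hclass : ∀ {V : ℝ≥0 → Ω → ℝ}, IsStronglyProgressive ℱ V →
      (∀ ω, ∀ M : ℝ, (∀ t ≤ T, |w t ω| ≤ M) → ∀ t ≤ T, |V t ω| ≤ R * (1 + M) ^ 3) →
      ∀ p : ℝ, 1 < p → IsClassD ℱ P T (fun t ω ↦ |V t ω| ^ p) := by
    intro V hVp hV p hp
    obtain ⟨g, hg1, hg2⟩ := exists_dominating hpre hT hwc hw0 hR0 hV hp
    refine isClassD_of_dominated (g := g) ?_ hg1 ?_
    · intro i
      have h1 : Measurable fun x : ℝ ↦ |x| ^ p := by fun_prop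
      exact h1.comp (hVp.isProgressive i)
    · filter_upwards [hg2] with ω hω t ht
      rw [henorm _ hp]
      exact hω t ht
  refine ⟨I₁ T, I₁, fun t ω ↦ 1 + I₂ t ω - D t ω, fun s ω ↦ K c₁ T (τ ω) s • e i₀,
    fun s ω ↦ K c₂ T (τ ω) s • e i₀, ?_, ?_, ?_, ?_, ?_, ?_, ?_⟩
  · exact (hI₁p.stronglyAdapted T).measurable
  · intro p hp
    obtain ⟨g, hg1, hg2⟩ := exists_dominating hpre hT hwc hw0 hR0 hb1 hp
    refine ⟨((hI₁p.stronglyAdapted T).mono (ℱ.le T)).aestronglyMeasurable, ?_⟩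
    rw [eLpNorm_lt_top_iff_lintegral_rpow_enorm_lt_top (by simp; linarith)
      ENNReal.ofReal_ne_top, ENNReal.toReal_ofReal (by linarith)]
    refine lt_of_le_of_lt (lintegral_mono_ae ?_) hg1
    filter_upwards [hg2] with ω hω
    exact hω T le_rfl
  · refine ⟨hI₁p.isProgressive, (progressive_K hτ hτT c₁ i₀).isProgressive, ?_, ?_, I₁,
      hito c₁, ?_⟩
    · exact fun ω ↦ continuous_J (hwc ω)
    · exact Eventually.of_forall fun ω ↦ hsq c₁ ω
    · refine Eventually.of_forall fun ω t _ ↦ ?_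
      have h1 : ∫ s in (t : ℝ)..T, ‖K c₁ T (τ ω) s.toNNReal • e i₀‖ *
          Real.sin ‖K c₁ T (τ ω) s.toNNReal • e i₀‖ = 0 := by
        simp_rw [norm_smul_e, gen_c₁]
        exact intervalIntegral.integral_zero
      rw [h1]
      ring
  · refine ⟨hY'p.isProgressive, (progressive_K hτ hτT c₂ i₀).isProgressive, ?_, ?_, I₂,
      hito c₂, ?_⟩
    · intro ω
      exact (continuous_const.add (continuous_J (hwc ω))).sub
        (continuous_J NNReal.continuous_coe)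
    · exact Eventually.of_forall fun ω ↦ hsq c₂ ω
    · refine Eventually.of_forall fun ω t _ ↦ ?_
      have h1 : ∫ s in (t : ℝ)..T, ‖K c₂ T (τ ω) s.toNNReal • e i₀‖ *
          Real.sin ‖K c₂ T (τ ω) s.toNNReal • e i₀‖ = D T ω - D t ω := by
        simp_rw [norm_smul_e, gen_c₂ (hτ0 ω) (hτT ω)]
        exact integral_K_right c₂ T (τ ω) t
      rw [h1, ← hterm ω]
      ring
  · exact fun p hp ↦ ⟨hclass hI₁p hb1 p hp, hclass hY'p hb2 p hp⟩
  · intro ω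
    have h1 : ∀ (c : ℕ → ℝ) (v : ℝ≥0 → ℝ), J c T (τ ω) v 0 = 0 := by
      intro c v
      unfold J
      refine Finset.sum_eq_zero fun k _ ↦ ?_
      simp
    refine ⟨h1 _ _, ?_⟩
    show 1 + J c₂ T (τ ω) (fun s ↦ w s ω) 0 - J c₂ T (τ ω) (fun s ↦ (s : ℝ)) 0 = 1
    rw [h1, h1]
    ring
  · intro hcon
    have h1 : ∀ᵐ ω ∂P, False := by
      filter_upwards [hcon] with ω hω
      have h2 := hω 0 zero_le
      have h3 : ∀ (c : ℕ → ℝ) (v : ℝ≥0 → ℝ), J c T (τ ω) v 0 = 0 := by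
        intro c v
        unfold J
        refine Finset.sum_eq_zero fun k _ ↦ ?_
        simp
      have h4 : J c₁ T (τ ω) (fun s ↦ w s ω) 0 =
        1 + J c₂ T (τ ω) (fun s ↦ w s ω) 0 - J c₂ T (τ ω) (fun s ↦ (s : ℝ)) 0 := h2
      rw [h3, h3, h3] at h4
      norm_num at h4
    rw [eventually_false_iff_eq_bot, ae_eq_bot] at h1
    exact IsProbabilityMeasure.ne_zero P h1

end Pool.Agent.Results.MP_3fc9e2_pr.NonUnique
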